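import Pool.Agent.MP_5d9b3c_ag.P3B.XSpec
import Pool.Agent.MP_ee8c61_ag.N3BK.XDefs
import Pool.Agent.MP_ee8c61_ag.N3.FKit

/-! The cross functions on curves of exponent zero: the statements. -/

namespace Pool.Agent.MP_ee8c61_ag.N3.BK.P3D

open Pool.Agent.MP_5d9b3c_ag Pool.Agent.MP_5d9b3c_ag.P3B

set_option linter.unusedSectionVars false

variable [Base]

open M3BK M3 M3RESID Set
open Pool.Agent.MP_96693b_ag.RS (Loc LocOf)

noncomputable section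

/-- The cross function of a double curve is a monomial. The point `Q₀` has the coordinates of the
model, the point `Q` is any point of the curve with any adapted coordinates. -/
def SCRP : Prop := ∀ (f : Po 3) (la : ℚ) (b : Polynomial ℂ) β q (M : Mod 3) (o o' : M.J)
  (k k' : Type) [Field k] [Algebra ℂ k] [Field k'] [Algebra ℂ k'] (P : Pl (KK 3) k)
  (P' : Pl (KK 3) k') (e : Dv k) (v : VF k) (e' : Dv k') (v' : VF k') (ψ : k) (ψ' : k')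
  (G : DV k) (G' : DV k') (σ : G.kf) (θ : VF G.kf) (μ : ℂ) (ι : G'.kf ≃ₐ[ℂ] G.kf)
  Q₀ C₀ lab i₀ i₀' C20 x₀ m₀ C20' x₀' m₀', Hyp f la b β q → M.OK f → M.ex la o = 0 →
  M.ex la o' = 0 → P.RsD (dvf f la) e → P.Res (dvf f la) (bf la β) v →
  P'.RsD (dvf f la) e' → P'.Res (dvf f la) (bf la β) v' → M3BK.Gd e v ψ → M3BK.Gd e' v' ψ' →
  Eu e v (b.eval (-(la : ℂ))) G σ θ μ → Q₀ ∈ M.pts → Pt3 M f Q₀ C₀ lab → lab i₀ = some o →
  lab i₀' = some o' → Tw C₀ Q₀ i₀ i₀' P C20 x₀ m₀ G → Tw C₀ Q₀ i₀' i₀ P' C20' x₀' m₀' G' →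
  Io Q₀ P G P' G' ι → ∃ (c : ℂ) (j : ℤ), c ≠ 0 ∧
    ∀ Q ∈ M.pts, ∀ C i i' C2 x m C2' x' m', Tw C Q i i' P C2 x m G →
      Tw C Q i' i P' C2' x' m' G' → Io Q P G P' G' ι ∧
      Un (lift P G) (ip 3 f / (C.z i ^ M.aa o * C.z i' ^ M.aa o')) ∧
      G.pl.π (ψ / C2.z m ^ G.v ψ) ^ (M.aa o' * G'.v ψ') *
        ι (G'.pl.π (ψ' / C2'.z m' ^ G'.v ψ')) ^ (M.aa o * G.v ψ) *
        G.pl.π (P.π (ip 3 f / (C.z i ^ M.aa o * C.z i' ^ M.aa o'))) ^ (-(G.v ψ * G'.v ψ')) =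
      algebraMap ℂ _ c * σ ^ j

end

end Pool.Agent.MP_ee8c61_ag.N3.BK.P3D
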